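import Pool.Agent.Results.MP_e09b14_ag.AbelianCovers

/-!
# Fujita's freeness conjecture for branched abelian covers

The setting is that of the starting result `MP_e09b14_ag.AbelianCovers`, whose definitions we use:
`T` is a smooth projective variety of dimension `n`, `H` a very ample line bundle on `T`, `κ` is an
integer such that `Ω = K_T - κH` is base point free, and `π : X → T` is a smooth abelian cover which is
branched along divisors `D_i` of `T` which cross normally, given by forms `F_i` of degree `δ_i` in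
the sections of `H`, with indices `e_i ≥ 2` and with building data which are multiples of `H`. The
line bundles `O(l, u)` on `X` are given by classes `(l, u) ∈ ℤ × ℤ^r`, with `O(1, 0) = π^* H` and with
`O(0, 1_i)` the line bundle of the reduced preimage of `D_i`; `O(l, u)` is ample if and only if its
degree `l + ∑ u_i δ_i / e_i` is positive, and `K_X = π^* Ω + O(κ, e - 1)`.

The result: `K_X + A_1 + ... + A_m` is globally generated for all ample line bundles `A_j = O(k_j, u_j)`
and all `m ≥ 0` with `m ≥ -κ`, if `κ ≥ -(n + 1)`.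

For all `T` and `H` one can take `κ = -(n + 1)`, since `K_T + (n + 1) H` is base point free; so Fujita's
freeness conjecture (`m = n + 1`) holds for all these `X`, in particular for all smooth abelian covers
of `P^n`, `n ≥ 3`. For all `T`, `H` except `P^n`, `O(1)` one can take `κ = -n` (Sommese and Van de
Ven), and then `K_X + nA` is globally generated for all ample `A`. If `T` is a Calabi-Yau variety and `Ω = 0` then `K_X` is
globally generated. The starting result needs one more `A`: it shows that `K_X + mA` is very ample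
for `m ≥ 1 - κ`; for `T = P^n` this is `m ≥ n + 2`.

The proof. Let `I` be the set of the `i` for which `D_i` contains the image of the given point. There
is a monomial `∏ z_i ^ (a_i)` with `a_i = 0` for `i ∈ I` such that `K_X + ∑ A_j - π^* Ω = O(L, a)` with
an integer `L` with `M L ≥ M (κ + n) + m - n`, where the degrees of the `A_j` are multiples of `1 / M`. So
`L > -1`, and this monomial times a form of degree `L` in `x` times a section of `Ω` is a section
which is not zero at the given point.
-/

set_option autoImplicit false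

namespace Pool.Agent.Results.MP_9ff3e7_ag.AbelianCoversFree

open MvPolynomial Pool.Agent.Results.MP_e09b14_ag.AbelianCovers

variable {N N' c r n : ℕ}

/-- The sections of `π^* Ω + O(ρ)` have no base point on `X`. -/
def GloballyGenerated (D : Cover N N' c r n) (ρ : ℤ × (Fin r → ℤ)) : Prop :=
  ∀ x y z, OnCone D.G D.F D.e x y z → ∃ Φ, D.IsSection ρ Φ ∧ value x y z Φ ≠ 0

open Pool.Agent.K3h47.FU in
theorem result (N N' c r n : ℕ) (D : Cover N N' c r n) (κ : ℤ) (m : ℕ)
    (A : Fin m → ℤ × (Fin r → ℤ)) (hA : ∀ j, 0 < degree D.δ D.e (A j))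
    (hκ : -((n : ℤ) + 1) ≤ κ) (hm : -κ ≤ m) :
    GloballyGenerated D ((κ, fun i => (D.e i : ℤ) - 1) + ∑ j, A j) := by
  classical
  have h := D.dat
  obtain ⟨M, hM, hd, hF⟩ := h.exists_M
  have hMpos : (0 : ℚ) < M := by exact_mod_cast Nat.pos_of_ne_zero hM
  set ρ : ℤ × (Fin r → ℤ) := (κ, fun i => (D.e i : ℤ) - 1) + ∑ j, A j with hρ
  have hbet : bet D.δ D.e ρ = κ + ∑ j, degree D.δ D.e (A j) := by
    have h1 : ∑ i, ((ρ.2 i : ℚ) - (D.e i - 1)) * (D.δ i / D.e i)
        = ∑ j, ∑ i, ((A j).2 i : ℚ) * (D.δ i / D.e i) := by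
      rw [Finset.sum_comm]
      refine Finset.sum_congr rfl fun i _ => ?_
      have h2 : ρ.2 i = (D.e i : ℤ) - 1 + ∑ j, (A j).2 i := by
        simp [hρ, Prod.snd_sum, Finset.sum_apply]
      rw [h2, ← Finset.sum_mul]
      push_cast
      ring
    have h2 : ρ.1 = κ + ∑ j, (A j).1 := by simp [hρ, Prod.fst_sum]
    rw [bet, h1, h2]
    simp only [degree, Finset.sum_add_distrib]
    push_cast
    ring
  have hint : ∀ j, ∃ a : ℤ, (M : ℚ) * degree D.δ D.e (A j) = a := by
    intro j
    choose w hw using hd
    refine ⟨M * (A j).1 + ∑ i, (A j).2 i * w i, ?_⟩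
    rw [degree, mul_add, Finset.mul_sum, Int.cast_add, Int.cast_sum, Int.cast_mul,
      Int.cast_natCast]
    congr 1
    refine Finset.sum_congr rfl fun i _ => ?_
    rw [Int.cast_mul, Int.cast_natCast]
    have h1 : (M : ℚ) * D.δ i = D.e i * w i := by exact_mod_cast hw i
    have h2 : (D.e i : ℚ) ≠ 0 := by exact_mod_cast (h.neZero i).ne
    field_simp
    linear_combination ((A j).2 i : ℚ) * h1
  have hmain : (M : ℚ) * κ + m ≤ M * bet D.δ D.e ρ := by
    have h0 : (m : ℚ) ≤ ∑ j, (M : ℚ) * degree D.δ D.e (A j) := by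
      calc (m : ℚ) = ∑ _j : Fin m, (1 : ℚ) := by simp
        _ ≤ _ := Finset.sum_le_sum fun j _ => by
            obtain ⟨a, ha⟩ := hint j
            have h1 : (0 : ℚ) < a := by rw [← ha]; exact mul_pos hMpos (hA j)
            have h2 : (1 : ℤ) ≤ a := by exact_mod_cast h1
            rw [ha]
            exact_mod_cast h2
    rw [hbet, mul_add, Finset.mul_sum]
    linarith
  intro x y z hxz
  obtain ⟨v, hv⟩ := exists_lf_one hxz.1.1
  obtain ⟨L, a, ha, hR, hL⟩ := h.E12 hM hd hF ρ (Finset.univ.filter (fun i => z i = 0))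
    (D.few x y z hxz) (fun _ => 0) (fun i _ => Nat.zero_le _)
  set I : Finset (Fin r) := Finset.univ.filter (fun i => z i = 0) with hI
  have h4 : ∑ i ∈ I, (((D.e i - 1 - 0 : ℕ) : ℚ) * wt D.e M i) + ∑ i ∈ I, ((wt D.e M i : ℚ) - 1)
      ≥ I.card * ((M : ℚ) - 1) := by
    rw [← Finset.sum_add_distrib]
    have h5 : (I.card : ℚ) * ((M : ℚ) - 1) = ∑ i ∈ I, ((M : ℚ) - 1) := by
      rw [Finset.sum_const, nsmul_eq_mul]
    rw [h5]
    refine Finset.sum_le_sum fun i _ => ?_
    simpa using wt_sum_ge h i
  have hL0 : 0 ≤ L := by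
    have h5 : -((n : ℚ) + 1) ≤ κ := by exact_mod_cast hκ
    have h6 : -(κ : ℚ) ≤ m := by exact_mod_cast hm
    have h7 : (1 : ℚ) ≤ M := by exact_mod_cast Nat.one_le_iff_ne_zero.2 hM
    have h8 : 0 ≤ ((n : ℚ) + 1 + κ) * (M - 1) := mul_nonneg (by linarith) (by linarith)
    have h9 : (1 : ℚ) - M ≤ M * L := by nlinarith
    have h10 : (-1 : ℚ) < L := by
      by_contra hcon
      push Not at hcon
      nlinarith
    have h11 : (-1 : ℤ) < L := by exact_mod_cast h10
    omega
  lift L to ℕ using hL0
  have hsec : Sec D.R ρ (mono N a * lf r v ^ L) := by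
    refine Bi.sec (L := L) (a := a) ?_ hR
    have := (Bi.mono (N := N) a).mul ((Bi.lf (r := r) v).pow L)
    simpa using this
  obtain ⟨j, hj⟩ := Function.ne_iff.1 hxz.1.2.1
  refine ⟨up j (mono N a * lf r v ^ L), D.isSection_up hsec j, ?_⟩
  rw [value, eval_up, map_mul, map_pow, eval_mono, eval_lf]
  refine mul_ne_zero hj (mul_ne_zero ?_ (pow_ne_zero _ hv))
  refine Finset.prod_ne_zero_iff.2 fun i _ => ?_
  by_cases hi : z i = 0
  · rw [ha i (by rw [hI, Finset.mem_filter]; exact ⟨Finset.mem_univ _, hi⟩), pow_zero]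
    exact one_ne_zero
  · exact pow_ne_zero _ hi

end Pool.Agent.Results.MP_9ff3e7_ag.AbelianCoversFree
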