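import Pool.Agent.V5helper12.FJ.Red

/-!
# Fujita's freeness conjecture for weighted complete intersections of arbitrary codimension

Let `X = V(f_1, ..., f_c)` be a complete intersection of degrees `d_1, ..., d_c` and dimension `n` in
the weighted projective space `P(a_0, ..., a_{n+c})`. The weights, the degrees and the codimension are
arbitrary. Let `E` be a set of equations such that `O(1)` is invertible on `W = V(f_j : j ∈ E)`
(`hgcd`: the action of `ℂˣ` on the cone over `W` without its vertex is free), for instance the set of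
all equations, if `O(1)` is invertible on `X`. Then `K_X = O(∑ d_j - ∑ a_i)`, and we consider
`K_X + O(t) = O(e)`, `t ≥ n + 1`. We show that `e ≥ 0` and that some form of degree `e` does not
vanish at the point `v` of `X` if the semigroup generated by the weights of the nonzero coordinates
of `v` is generated by pairwise coprime weights among them: there is a set `J` of nonzero coordinates
of `v` with pairwise coprime weights such that the weights of the other nonzero coordinates are
combinations of those of `J`. For instance `v` may have at most two nonzero coordinates, or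
nonzero coordinates with pairwise coprime weights. The weights of the coordinates which vanish at `v`
are arbitrary.

The proof. By a change of coordinates we may assume that `J` is the set `I` of all nonzero coordinates,
and that `a_i > 1` for `i ∈ I`. Let `D_i` be the least multiple of `a_i` which is a combination of the
`a_k`, `k ∈ I`, `k ≠ i`.

1. Let `q` be a power of a prime. If `i ∈ I`, `q ∣ a_i` and `θ ≤ D_i` then an equation of degree less
than `θ` vanishes on the space with the coordinates `x_i` and `x_l`, `v_l = 0`, `q ∣ a_l ≥ θ` since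
otherwise it contains a power of `x_i` and, as it vanishes at `v`, another monomial in the `x_k`,
`k ∈ I`. So the number of degrees `d_j ≥ θ` divisible by `q` is more than the number of these `l`.
Hence the product of all `a_i`, `i ∈ I`, `D_i ≥ θ`, and of all `a_l ≥ θ`, `v_l = 0`, divides the
product of the `d_j ≥ θ`.

2. If `A`, `B` are finite families of positive integers, and if for all `θ` the product of the
elements `≥ θ` of `A` is at most the product of the elements `≥ θ` of `B` then
`∑_A (x - 1) ≤ ∑_B (x - 1)`, because `(x - 1) / log x` is increasing.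

3. Let `C ⊆ I` be a minimal nonempty set such that `D_i` is a combination of the `a_k`, `k ∈ C`,
`k ≠ i`, for all `i ∈ C`. Let `F` be the largest integer which is not a combination of the `a_i`,
`i ∈ C`, and let `D_i`, `i ∈ C`, be maximal for `i = i_0`. A suitable potential shows that there is
a representation `F + a_{i_0} = ∑ u_i a_i` with `(u_i + 1) a_i ≤ D_i` for all `i ∈ C`, `i ≠ i_0`,
such that the `∏ (u_i + 1)` numbers `∑ m_i a_i`, `m_i ≤ u_i`, are different modulo `a_{i_0}`. It
follows that 2. can be applied to the family of all `(u_i + 1) a_i`, `i ∈ C`, `i ≠ i_0`, all `a_i`,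
`i ∈ I`, `i ∉ C`, and all `a_l`, `v_l = 0`, and to the degrees. So `F + 1 + ∑ (a_i - 1)`, where the
sum is over all coordinates, is at most `∑ (d_j - 1)`, and this says that `F + 1 ≤ e`.
-/

set_option autoImplicit false

namespace Pool.Agent.Results.MP_9ff3e7_ag.CoprimeCoordinates

open MvPolynomial

/-- `K_X + O(t)`, `t ≥ n + 1`, is generated at the point `v` of the weighted complete intersection
`X = V(f_1, ..., f_c)` of dimension `n` if `O(1)` is invertible on the common zero locus of the `f_j`,
`j ∈ E`, and if the weights of the nonzero coordinates of `v` are combinations of pairwise coprime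
weights `a_k`, `k ∈ J`, among them. -/
theorem result (n c : ℕ) (a : Fin (n + c + 1) → ℕ) (ha : ∀ i, 0 < a i) (d : Fin c → ℕ)
    (hd : ∀ j, 0 < d j) (f : Fin c → MvPolynomial (Fin (n + c + 1)) ℂ)
    (hf : ∀ j, IsWeightedHomogeneous a (f j) (d j)) (E : Finset (Fin c))
    (hgcd : ∀ w : Fin (n + c + 1) → ℂ, w ≠ 0 → (∀ j ∈ E, eval w (f j) = 0) →
      ∀ g : ℕ, (∀ i, w i ≠ 0 → g ∣ a i) → g = 1)
    (t : ℕ) (ht : n + 1 ≤ t)
    (v : Fin (n + c + 1) → ℂ) (hv : v ≠ 0) (hfv : ∀ j, eval v (f j) = 0)
    (J : Finset (Fin (n + c + 1))) (hJ : ∀ k ∈ J, v k ≠ 0)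
    (hcop : ∀ k ∈ J, ∀ k' ∈ J, k ≠ k' → Nat.Coprime (a k) (a k'))
    (hgen : ∀ i, v i ≠ 0 → ∃ m : Fin (n + c + 1) → ℕ, a i = ∑ k ∈ J, m k * a k) :
    ∃ (e : ℕ) (s : MvPolynomial (Fin (n + c + 1)) ℂ), e + ∑ i, a i = ∑ j, d j + t ∧
      IsWeightedHomogeneous a s e ∧ eval v s ≠ 0 := by
  classical
  have hgcd' : ∀ w : Fin (n + c + 1) → ℂ, w ≠ 0 → (∀ j : E, eval w (f j) = 0) →
      ∀ g : ℕ, (∀ i, w i ≠ 0 → g ∣ a i) → g = 1 := fun w hw h g hg =>
    hgcd w hw (fun j hj => h ⟨j, hj⟩) g hg
  have h1 := V5helper12.FJ.card_le_card_of_free (d := fun j : E => d j) (fun j => hd j)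
    (fun j => hf j) hgcd'
  have h2 := V5helper12.FJ.sum_weights_le ha (fun j : E => hd j) h1
  have h2' : ∑ j : E, (d j - 1) ≤ ∑ j, (d j - 1) := by
    rw [Finset.sum_coe_sort E (fun j => d j - 1)]
    exact Finset.sum_le_sum_of_subset (Finset.subset_univ _)
  have ea : ∑ i, a i = ∑ i, (a i - 1) + (n + c + 1) := by
    have : ∑ i, a i = ∑ i, ((a i - 1) + 1) := Finset.sum_congr rfl fun i _ => by
      have := ha i
      omega
    rw [this, Finset.sum_add_distrib]
    simp
  have ed : ∑ j, d j = ∑ j, (d j - 1) + c := by
    have : ∑ j, d j = ∑ j, ((d j - 1) + 1) := Finset.sum_congr rfl fun j _ => by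
      have := hd j
      omega
    rw [this, Finset.sum_add_distrib]
    simp
  obtain ⟨s, hs, hsv⟩ := V5helper12.FJ.generated_of_coprime_generators a ha (fun j : E => d j)
    (fun j => hd j) (fun j => f j) (fun j => hf j) hgcd' (e := ∑ j, d j + t - ∑ i, a i) (by omega)
    v hv (fun j => hfv j) J hJ hcop (fun i hi _ => by
      obtain ⟨m, hm⟩ := hgen i hi
      exact ⟨m, hm.symm⟩)
  exact ⟨∑ j, d j + t - ∑ i, a i, s, by omega, hs, hsv⟩

end Pool.Agent.Results.MP_9ff3e7_ag.CoprimeCoordinates
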