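import Pool.Agent.V5helper70.FUJ.A

/-!
# Fujita's conjectures for étale quotients of hypersurfaces

Let `Y ⊂ P^(n+1)` be a hypersurface of degree `d`, and let a finite group `G` act on it by projective
transformations, given by linear maps of `ℂ^(n+2)`, such that `G / S` acts freely on `Y`, where `S`
is the group of the elements which act by scalars. (Every finite group of projective transformations
is such a `G / S`.) Let `X = Y / G`. For example, if `n ≥ 3` then all smooth projective `X` which have a
smooth hypersurface of degree `d` in `P^(n+1)` as a finite étale Galois cover are of this form, and all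
line bundles on `X` are among the line bundles considered here: the line bundles on `X` whose
pullback to `Y` is `O(k)` are given by the characters `θ` of `G` with `θ(g) = c ^ k` for all `g` which
act by a scalar `c`. The sections of `K_X + A_1 + ... + A_m`, where the pullback of `A_i` to `Y` is
`O(k_i)`, `k_i ≥ 1`, are the forms of degree `e = d - (n + 2) + ∑ k_i` on the cone over `Y` on which `G`
acts by a certain character `χ`, with `χ(g) = c ^ e` for all `g` which act by a scalar `c`.

Suppose that `n + 2` is not a prime number, or that `(n + 2) ^ 2` does not divide the order of `G / S`.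
Then

* `K_X + A_1 + ... + A_m` is globally generated for `m ≥ n + 1`;
* `K_X + A_1 + ... + A_m` is very ample (points and tangent vectors are separated) for `m ≥ n + 2`.

The first holds in all cases if `d ≤ 2 (n + 2)`, and the second in all cases if `d ≤ n + 2`.
For `A_1 = ... = A_m = A` these are the conjectures of Fujita.

The proof. An element `z` of `G` which is not a scalar has `n + 2` different eigenvalues, since every
line in `P^(n+1)` meets `Y`, and `f ≠ 0` at the eigenvectors. So if `q` is a prime and `z ^ q` is a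
scalar, then `n + 2 ≤ q` (the eigenvalues are `q`-th roots of a number) and `q` divides `d` (`f` is
semi-invariant). The order of `G / S` divides `(n + 2) d`: this is an argument with central elements
of Sylow subgroups, whose commutators with other elements are scalars `ω` with `ω ^ (n + 2) = 1`
because of the determinant. Hence the order divides `d` if `n + 2` is not prime or if its square does
not divide the order. Now `e ≥ d - 1` for `m = n + 1`, so a product of `e` linear forms vanishes at all
points of an orbit except one, and the average is a section which is not zero in this point. In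
the other cases `n + 2` divides all `k_i`, and the products of linear forms can be chosen such that
most linear forms vanish at two points of the orbit.
-/

set_option autoImplicit false

namespace Pool.Agent.Results.MP_9ff3e7_ag.HypersurfaceQuotients

open MvPolynomial

/-- A hypersurface `f = 0` of degree `d` in `P^(n+1)` and a linear action `ρ` of the group `G` on
`ℂ^(n+2)` for which `f` is semi-invariant, such that an element which fixes a point of the
hypersurface acts by a scalar. -/
structure HypersurfaceCover (G : Type) [Group G] (n : ℕ) where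
  /-- the equation -/
  f : MvPolynomial (Fin (n + 2)) ℂ
  /-- the degree -/
  d : ℕ
  pos : 1 ≤ d
  hom : f.IsHomogeneous d
  /-- the action -/
  ρ : Representation ℂ G (Fin (n + 2) → ℂ)
  semi : ∀ g : G, ∃ c : ℂ, ∀ x, eval (ρ g x) f = c * eval x f
  free : ∀ v : Fin (n + 2) → ℂ, v ≠ 0 → eval v f = 0 → ∀ (g : G) (μ : ℂ), ρ g v = μ • v →
    ∃ c : ℂ, ∀ x, ρ g x = c • x

variable {G : Type} [Group G] {n : ℕ}

/-- The line bundle `O(k)` on `Y` is the pullback of a line bundle on `X = Y / G`. -/
def Descends (Y : HypersurfaceCover G n) (k : ℕ) : Prop :=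
  ∃ θ : G →* ℂˣ, ∀ (g : G) (c : ℂ), (∀ x, Y.ρ g x = c • x) → (θ g : ℂ) = c ^ k

/-- The forms of degree `e` on which `G` acts by the character `χ`. -/
def Section (Y : HypersurfaceCover G n) (e : ℕ) (χ : G →* ℂˣ)
    (F : MvPolynomial (Fin (n + 2)) ℂ) : Prop :=
  F.IsHomogeneous e ∧ ∀ (g : G) (x : Fin (n + 2) → ℂ), eval (Y.ρ g x) F = χ g * eval x F

/-- These forms have no common zero on `Y`. -/
def GloballyGenerated (Y : HypersurfaceCover G n) (e : ℕ) (χ : G →* ℂˣ) : Prop :=
  ∀ y : Fin (n + 2) → ℂ, y ≠ 0 → eval y Y.f = 0 → ∃ F, Section Y e χ F ∧ eval y F ≠ 0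

/-- These forms have no common zero on `Y`, and they separate the points and the tangent vectors
of `X = Y / G`. -/
def VeryAmple (Y : HypersurfaceCover G n) (e : ℕ) (χ : G →* ℂˣ) : Prop :=
  GloballyGenerated Y e χ ∧
  (∀ y z : Fin (n + 2) → ℂ, y ≠ 0 → z ≠ 0 → eval y Y.f = 0 → eval z Y.f = 0 →
    (¬ ∃ (g : G) (c : ℂ), z = c • Y.ρ g y) → ∃ F, Section Y e χ F ∧ eval y F = 0 ∧ eval z F ≠ 0) ∧
  (∀ y u : Fin (n + 2) → ℂ, y ≠ 0 → eval y Y.f = 0 → ∑ i, eval y (pderiv i Y.f) * u i = 0 →
    (¬ ∃ c : ℂ, u = c • y) →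
    ∃ F, Section Y e χ F ∧ eval y F = 0 ∧ ∑ i, eval y (pderiv i F) * u i ≠ 0)

/-- **Fujita's conjectures for étale quotients of hypersurfaces.** -/
theorem result {G : Type} [Group G] [Finite G] {n : ℕ} (Y : HypersurfaceCover G n)
    -- the order of the group modulo scalars
    (r : ℕ) (hr : Nat.card G = r * Nat.card {g : G // ∃ c : ℂ, ∀ x, Y.ρ g x = c • x})
    -- the line bundles
    (m : ℕ) (k : Fin m → ℕ) (hk : ∀ i, 1 ≤ k i) (hA : ∀ i, Descends Y (k i))
    (e : ℕ) (he : (e : ℤ) = Y.d - (n + 2) + ∑ i, (k i : ℤ))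
    (χ : G →* ℂˣ) (hχ : ∀ (g : G) (c : ℂ), (∀ x, Y.ρ g x = c • x) → (χ g : ℂ) = c ^ e) :
    (n + 1 ≤ m → (¬ (n + 2).Prime ∨ ¬ (n + 2) ^ 2 ∣ r ∨ Y.d ≤ 2 * (n + 2)) →
      GloballyGenerated Y e χ) ∧
    (n + 2 ≤ m → (¬ (n + 2).Prime ∨ ¬ (n + 2) ^ 2 ∣ r ∨ Y.d ≤ n + 2) → VeryAmple Y e χ) := by
  have hact : Pool.Agent.V5helper70.FUJ.Act Y.ρ Y.f Y.d := ⟨Y.hom, Y.semi, Y.free⟩
  have hS := Pool.Agent.V5helper70.FUJ.free_unit hact
  have hri : (Pool.Agent.N212.FQ.scalars Y.ρ).index = r := by
    have h1 := Subgroup.index_mul_card (Pool.Agent.N212.FQ.scalars Y.ρ)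
    have h2 : Nat.card (Pool.Agent.N212.FQ.scalars Y.ρ) =
      Nat.card {g : G // ∃ c : ℂ, ∀ x, Y.ρ g x = c • x} := rfl
    rw [hr, h2] at h1
    exact Nat.eq_of_mul_eq_mul_right (h2 ▸ Nat.card_pos) h1
  have he' : e + (n + 2) = Y.d + ∑ i, k i := by
    have h1 : ((e + (n + 2) : ℕ) : ℤ) = ((Y.d + ∑ i, k i : ℕ) : ℤ) := by
      push_cast
      rw [he]
      ring
    exact_mod_cast h1
  obtain ⟨hb1, hb2⟩ := Pool.Agent.V5helper70.FUJ.index_bounds (by omega : 2 ≤ n + 2) hact Y.pos
    m k hk hA e he'
  rw [hri] at hb1 hb2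
  refine ⟨fun hm hc y hy0 hy => ?_, fun hm hc => ⟨fun y hy0 hy => ?_, fun y z hy0 hz0 hy hz hyz => ?_,
    fun y u hy0 hy hu hne => ?_⟩⟩
  · rcases hb1 (by omega) hc with h1 | ⟨h1, h2⟩
    · exact Pool.Agent.N212.FQ.freeness hS (by rw [hri]; exact h1) χ hχ hy0 fun _ => hy
    · exact Pool.Agent.N212.FQ.freeness2 hS (by rw [hri]; exact h1) (fun _ => h2) χ hχ hy0
        fun _ => hy
  · obtain ⟨h1, h2⟩ := hb2 hm hc
    exact Pool.Agent.N212.FQ.freeness hS (by rw [hri]; omega) χ hχ hy0 fun _ => hy
  · obtain ⟨h1, h2⟩ := hb2 hm hc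
    exact Pool.Agent.N212.FQ.points hS (by rw [hri]; exact h1) (fun _ => h2) χ hχ hy0 hz0
      (fun _ => hy) (fun _ => hz) fun g t h => hyz ⟨g, t, h⟩
  · obtain ⟨h1, h2⟩ := hb2 hm hc
    exact Pool.Agent.N212.FQ.tangents hS (by rw [hri]; exact h1) (fun _ => h2) χ hχ hy0
      (fun _ => hy) (fun _ => hu) fun t h => hne ⟨t, h⟩

end Pool.Agent.Results.MP_9ff3e7_ag.HypersurfaceQuotients
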