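import Pool.Agent.V5helper12.FJ.Geo

/-!
# Fujita's freeness conjecture for weighted complete intersections

Let `X = V(f_1, ..., f_c)` be a complete intersection of degrees `d_1, ..., d_c` and dimension `n` in
the weighted projective space `P(a_0, ..., a_{n+c})`, with arbitrary weights. Let `E` be a set of
equations such that `O(1)` is invertible on `W = V(f_j : j ∈ E)` (`hgcd`: the action of `ℂˣ` on the cone
over `W` without its vertex is free); if `E` is the set of all equations this says that `O(1)` is
invertible on `X`. Then `K_X = O(∑ d_j - ∑ a_i)`, and we consider `K_X + O(t) = O(e)`, `t ≥ n + 1`, for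
instance `K_X + A_1 + ... + A_m`, `m ≥ n + 1`, for ample line bundles `A_s = O(k_s)`. Then `e ≥ 0`, and
some form of weighted degree `e` does not vanish at the point `v` of `X`

* if `E` has at most two elements;
* if `gcd(a_i, a_i')` divides `d_j` for all `j ∈ E` and all `i ≠ i'` with `v_i ≠ 0` (for instance if the
  weights are pairwise coprime, or if all the weights divide all the degrees).

So Fujita's conjecture on global generation holds for `A = O(k)` on all weighted complete
intersections of codimension at most two (and on their intersections with arbitrary hypersurfaces),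
and in any codimension if the greatest common divisors of two weights divide the degrees.

The proof. Let `I` be the set of the `i` with `v_i ≠ 0`, we may assume `a_i > 1` for `i ∈ I`. Counting
dimensions, the number `A(z)` of weights divisible by `z > 1` is at most the number `D(z)` of the
degrees `d_j`, `j ∈ E`, divisible by `z`. We have to show that the conductor `F + 1` of the semigroup
generated by the `a_i`, `i ∈ I`, is at most `∑ (d_j - 1) - ∑ (a_i - 1) = ∑_z φ(z) (D(z) - A(z))`. Let
`T_i` be the set of the `j ∈ E` with `a_i ∣ d_j`. If `T_i` and `T_k` meet for some `i ≠ k` in `I` one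
takes a chain in `I` beginning with `i`, `k`; Brauer's bound for `F + 1` is `∑ φ(z) B(z)`, where
`A(z) + B(z) ≤ D(z)`. Otherwise let `M` be the greatest common divisor of the degrees and write
`a_i = gcd(a_i, M) b_i`, `d_j = M b_i λ_i` for the `j ∈ T_i` such that a power of `x_i` appears in
`f_j`. As `f_j(v) = 0`, there is another monomial in the `x_k`, `k ∈ I`, of degree `d_j`. Let `C ⊆ I`
be a minimal set such that for `i ∈ C` there are such monomials in the `x_k`, `k ∈ C`. These relations
give a bound for the largest multiple of `gcd(a_i : i ∈ C)` which is not a combination of the `a_i`,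
`i ∈ C`, and Brauer's bound is used for the remaining elements of `I`. The minimality implies that
the sets `{b_i, 2 b_i, ..., λ_i b_i}`, `i ∈ C`, are disjoint if `C` has more than two elements, which
gives `∑ λ_i ≤ max λ_i b_i`, and this is what is needed.
-/

set_option autoImplicit false

namespace Pool.Agent.Results.MP_9ff3e7_ag.WeightedCompleteIntersections

open MvPolynomial

/-- `K_X + O(t)`, `t ≥ n + 1`, is generated at the point `v` of the weighted complete intersection
`X = V(f_1, ..., f_c)` of dimension `n` if `O(1)` is invertible on the common zero locus of the `f_j`,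
`j ∈ E`, and if `E` has at most two elements or if `gcd(a_i, a_i')` divides the degrees `d_j`, `j ∈ E`,
for all `i ≠ i'` with `v_i ≠ 0`. -/
theorem result (n c : ℕ) (a : Fin (n + c + 1) → ℕ) (ha : ∀ i, 0 < a i) (d : Fin c → ℕ)
    (hd : ∀ j, 0 < d j) (f : Fin c → MvPolynomial (Fin (n + c + 1)) ℂ)
    (hf : ∀ j, IsWeightedHomogeneous a (f j) (d j)) (E : Finset (Fin c))
    (hgcd : ∀ w : Fin (n + c + 1) → ℂ, w ≠ 0 → (∀ j ∈ E, eval w (f j) = 0) →
      ∀ g : ℕ, (∀ i, w i ≠ 0 → g ∣ a i) → g = 1)
    (t : ℕ) (ht : n + 1 ≤ t)
    (v : Fin (n + c + 1) → ℂ) (hv : v ≠ 0) (hfv : ∀ j, eval v (f j) = 0)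
    (hH : E.card ≤ 2 ∨ ∀ i, v i ≠ 0 → ∀ i', i' ≠ i → ∀ j ∈ E, Nat.gcd (a i) (a i') ∣ d j) :
    ∃ (e : ℕ) (s : MvPolynomial (Fin (n + c + 1)) ℂ), e + ∑ i, a i = ∑ j, d j + t ∧
      IsWeightedHomogeneous a s e ∧ eval v s ≠ 0 := by
  classical
  have hgcd' : ∀ w : Fin (n + c + 1) → ℂ, w ≠ 0 → (∀ j : E, eval w (f j) = 0) →
      ∀ g : ℕ, (∀ i, w i ≠ 0 → g ∣ a i) → g = 1 := fun w hw h g hg =>
    hgcd w hw (fun j hj => h ⟨j, hj⟩) g hg
  have h1 := V5helper12.FJ.card_le_card_of_free (d := fun j : E => d j) (fun j => hd j)
    (fun j => hf j) hgcd'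
  have h2 := V5helper12.FJ.sum_weights_le ha (fun j : E => hd j) h1
  have h2' : ∑ j : E, (d j - 1) ≤ ∑ j, (d j - 1) := by
    rw [Finset.sum_coe_sort E (fun j => d j - 1)]
    exact Finset.sum_le_sum_of_subset (Finset.subset_univ _)
  have ea : ∑ i, a i = ∑ i, (a i - 1) + (n + c + 1) := by
    have : ∑ i, a i = ∑ i, ((a i - 1) + 1) := Finset.sum_congr rfl fun i _ => by
      have := ha i
      omega
    rw [this, Finset.sum_add_distrib]
    simp
  have ed : ∑ j, d j = ∑ j, (d j - 1) + c := by
    have : ∑ j, d j = ∑ j, ((d j - 1) + 1) := Finset.sum_congr rfl fun j _ => by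
      have := hd j
      omega
    rw [this, Finset.sum_add_distrib]
    simp
  have hH' : ∀ i, v i ≠ 0 → ∀ i', i' ≠ i → ∀ j : E, Nat.gcd (a i) (a i') ∣ d j := by
    rcases hH with hc | hH
    · intro i _ i' hi' j
      exact V5helper12.FJ.gcd_dvd_of_card_le_two (d := fun j : E => d j) ha h1
        (by rw [Fintype.card_coe]; exact hc) i i' hi' j
    · exact fun i hi i' hi' j => hH i hi i' hi' j j.2
  obtain ⟨s, hs, hsv⟩ := V5helper12.FJ.generated a ha (fun j : E => d j) (fun j => hd j)
    (fun j => f j) (fun j => hf j) hgcd' (e := ∑ j, d j + t - ∑ i, a i) (by omega) v hv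
    (fun j => hfv j) hH'
  exact ⟨∑ j, d j + t - ∑ i, a i, s, by omega, hs, hsv⟩

end Pool.Agent.Results.MP_9ff3e7_ag.WeightedCompleteIntersections
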